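import Mathlib
import Pool.Agent.H14.Accurate

set_option autoImplicit false

namespace Pool.Agent.Results.MP_a24849_co.Unbounded

open Pool.Agent.H14.Accurate in
theorem result (k : ℕ) : ∃ (V : Type) (_ : Fintype V) (G : SimpleGraph V)
    (P : V → Set (Set V)), IsPartFamily G P ∧ Fintype.card V + k < gammaA (corona G P) :=
  main k

end Pool.Agent.Results.MP_a24849_co.Unbounded
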